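import Mathlib
import Pool.Agent.TH310.Cor.Ind
import Pool.Agent.W732.Cor.All

/-!
# The corona theorem on the ball for functions attached to `k` complex geodesics and one arbitrary
function, with uniform bounds

A function `h` on the unit ball `B` of `ℂ^m` is called scaled continuous along the complex geodesic
through `0` and `p` (`‖p‖ = 1`) with modulus `r` if the functions `h ∘ mv p a`, `|a| < 1`, are
equicontinuous, with modulus `r`, at all points of the sphere orthogonal to `p`; here `mv p a` are the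
automorphisms of `B` which translate the geodesic. Near the sphere, this says that `h` is uniformly
continuous at the scale of the distance to the end circle of the geodesic. Examples are all functions
`f(⟨p, z⟩)`, `f ∈ H^∞(𝔻)`, and `H(⟨p, z⟩ p + t (z - ⟨p, z⟩ p))`, `H ∈ H^∞(B)`, `t < 1`.

`result`: for `k` arbitrary complex geodesics (given by arbitrary automorphisms `ψ_1, …, ψ_k` of `B`),
for functions `h_{s,j}` of this kind and for one arbitrary `G ∈ H^∞(B)`, if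
`∑ |h_{s,j} ∘ ψ_s| + |G| ≥ δ` then `∑ h_{s,j}(ψ_s z) g_{s,j}(z) + G(z) g_0(z) = 1` has holomorphic
solutions bounded by a constant which depends only on `m`, `k`, `N`, `δ` and `r`, not on the
automorphisms. `one_variable` and `tau_functions` are the cases of the examples.

Proof. Bounded sequences of bounded holomorphic functions form a Banach algebra; if there is no common
bound, then there is a character `χ` which annihilates a sequence of data. Slice localisation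
(`S_ball`, a construction of P. Jones type) in the direction of the geodesic of the first family gives
automorphisms `θ` and a character which annihilates the data composed with `θ` and lies over a
boundary point `q` which is orthogonal to `p`, where the functions of the first family are
equicontinuous and hence small: this family is replaced by the function `1 - ⟨q, z⟩`
(`Pool.Agent.TH310.Cor.step`). The functions `1 - ⟨q, z⟩` produced by two such steps are scaled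
continuous along one geodesic (`decomp`, `scr_Lo`), so that another step replaces both of them by one
function `1 - ⟨q', z⟩` (`indT`). After `k` rounds only `G` and one function `1 - ⟨q, z⟩` are left.
-/

set_option autoImplicit false

open Metric Set

namespace Pool.Agent.Results.MP_ca0fc2_an.ManyGeodesics

/-- `ℂ^m` with the Euclidean norm. -/
abbrev V (m : ℕ) := EuclideanSpace ℂ (Fin m)

/-- The automorphisms of the ball (`‖p‖ = 1`, `|a| < 1`) which translate the complex geodesic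
through `0` and `p`: `⟨p, mv p a z⟩ = (⟨p, z⟩ + a) / (1 + conj a ⟨p, z⟩)`. -/
noncomputable def mv {m : ℕ} (p : V m) (a : ℂ) (z : V m) : V m :=
  (1 / (1 + starRingEnd ℂ a * inner ℂ p z)) •
    (((inner ℂ p z : ℂ) + a) • p + ((√(1 - ‖a‖ ^ 2) : ℝ) : ℂ) • (z - (inner ℂ p z : ℂ) • p))

/-- `h` is scaled continuous along the geodesic of `p`, with modulus `r`: the functions
`h ∘ mv p a`, `|a| < 1`, are equicontinuous at all points `q` of the sphere orthogonal to `p`. -/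
def Scaled {m : ℕ} (p : V m) (r : V m → ℝ → ℝ) (h : V m → ℂ) : Prop :=
  ∀ q : V m, ‖q‖ = 1 → (inner ℂ p q : ℂ) = 0 → ∀ ε : ℝ, 0 < ε →
    ∀ a ∈ ball (0 : ℂ) 1, ∀ z ∈ ball (0 : V m) 1, ∀ w ∈ ball (0 : V m) 1,
      ‖z - q‖ < r q ε → ‖w - q‖ < r q ε → ‖h (mv p a z) - h (mv p a w)‖ ≤ ε

/-- `ψ` is an automorphism of the ball, with inverse `φ`. -/
structure IsAut {m : ℕ} (ψ φ : V m → V m) : Prop where
  d1 : DifferentiableOn ℂ ψ (ball 0 1)
  d2 : DifferentiableOn ℂ φ (ball 0 1)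
  m1 : MapsTo ψ (ball 0 1) (ball 0 1)
  m2 : MapsTo φ (ball 0 1) (ball 0 1)
  i1 : ∀ z ∈ ball (0 : V m) 1, φ (ψ z) = z
  i2 : ∀ z ∈ ball (0 : V m) 1, ψ (φ z) = z

/-- **The corona theorem for `k` geodesics and one arbitrary function.** -/
theorem result (m k N : ℕ) (p : V m) (hp : ‖p‖ = 1) (r : V m → ℝ → ℝ)
    (hr : ∀ q ε, 0 < ε → 0 < r q ε) (δ : ℝ) (hδ : 0 < δ) :
    ∃ C : ℝ, ∀ (ψ φ : Fin k → V m → V m) (h : Fin k → Fin N → V m → ℂ) (G : V m → ℂ),
      (∀ s, IsAut (ψ s) (φ s)) →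
      (∀ s j, DifferentiableOn ℂ (h s j) (ball 0 1)) → DifferentiableOn ℂ G (ball 0 1) →
      (∀ s j, ∀ z ∈ ball (0 : V m) 1, ‖h s j z‖ ≤ 1) → (∀ z ∈ ball (0 : V m) 1, ‖G z‖ ≤ 1) →
      (∀ s j, Scaled p r (h s j)) →
      (∀ z ∈ ball (0 : V m) 1, δ ≤ ∑ s, ∑ j, ‖h s j (ψ s z)‖ + ‖G z‖) →
      ∃ (g : Fin k → Fin N → V m → ℂ) (g₀ : V m → ℂ),
        (∀ s j, DifferentiableOn ℂ (g s j) (ball 0 1)) ∧ DifferentiableOn ℂ g₀ (ball 0 1) ∧
        (∀ s j, ∀ z ∈ ball (0 : V m) 1, ‖g s j z‖ ≤ C) ∧ (∀ z ∈ ball (0 : V m) 1, ‖g₀ z‖ ≤ C) ∧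
        ∀ z ∈ ball (0 : V m) 1, ∑ s, ∑ j, h s j (ψ s z) * g s j z + G z * g₀ z = 1 := by
  obtain ⟨C, hC⟩ := Pool.Agent.TH310.Cor.main Pool.Agent.W732.Cor.t_mv Pool.Agent.W732.Cor.t_ball
    Pool.Agent.W732.Cor.t_uni hp r hr N k hδ
  refine ⟨C, fun ψ φ h G hψ hd hGd hb hGb hs hlow => ?_⟩
  refine hC (fun s j z => h s j (ψ s z)) G ⟨fun s j => ⟨(hd s j).comp (hψ s).d1 (hψ s).m1,
    fun z hz => hb s j _ ((hψ s).m1 hz)⟩, fun s => ⟨ψ s, φ s, ⟨(hψ s).d1, (hψ s).d2, (hψ s).m1,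
    (hψ s).m2, (hψ s).i1, (hψ s).i2⟩, fun j => ?_⟩⟩ ⟨hGd, hGb⟩ hlow
  have h1 : Pool.Agent.TH310.Cor.SCr p r (h s j) := hs s j
  refine h1.congr Pool.Agent.W732.Cor.t_mv hp (fun z hz => ?_)
  change h s j (ψ s (φ s z)) = h s j z
  rw [(hψ s).i2 z hz]

/-- The case of the functions `H(⟨p, z⟩ p + t (z - ⟨p, z⟩ p))`, `t < 1`, `H ∈ H^∞(B)`. -/
theorem tau_functions (m k N : ℕ) (p : V m) (hp : ‖p‖ = 1) (t : ℝ) (ht0 : 0 ≤ t) (ht1 : t < 1)
    (δ : ℝ) (hδ : 0 < δ) :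
    ∃ C : ℝ, ∀ (ψ φ : Fin k → V m → V m) (H : Fin k → Fin N → V m → ℂ) (G : V m → ℂ),
      (∀ s, IsAut (ψ s) (φ s)) →
      (∀ s j, DifferentiableOn ℂ (H s j) (ball 0 1)) → DifferentiableOn ℂ G (ball 0 1) →
      (∀ s j, ∀ z ∈ ball (0 : V m) 1, ‖H s j z‖ ≤ 1) → (∀ z ∈ ball (0 : V m) 1, ‖G z‖ ≤ 1) →
      (∀ z ∈ ball (0 : V m) 1, δ ≤ ∑ s, ∑ j, ‖H s j ((inner ℂ p (ψ s z) : ℂ) • p +
        (t : ℂ) • (ψ s z - (inner ℂ p (ψ s z) : ℂ) • p))‖ + ‖G z‖) →
      ∃ (g : Fin k → Fin N → V m → ℂ) (g₀ : V m → ℂ),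
        (∀ s j, DifferentiableOn ℂ (g s j) (ball 0 1)) ∧ DifferentiableOn ℂ g₀ (ball 0 1) ∧
        (∀ s j, ∀ z ∈ ball (0 : V m) 1, ‖g s j z‖ ≤ C) ∧ (∀ z ∈ ball (0 : V m) 1, ‖g₀ z‖ ≤ C) ∧
        ∀ z ∈ ball (0 : V m) 1, ∑ s, ∑ j, H s j ((inner ℂ p (ψ s z) : ℂ) • p +
          (t : ℂ) • (ψ s z - (inner ℂ p (ψ s z) : ℂ) • p)) * g s j z + G z * g₀ z = 1 := by
  classical
  choose r hr hr2 using fun (ε : ℝ) (hε : 0 < ε) => Pool.Agent.W732.Cor.t_sc2 m p hp t ht0 ht1 ε hε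
  obtain ⟨C, hC⟩ := result m k N p hp (fun _ ε => if h : 0 < ε then r ε h else 1) (by
    intro q ε hε
    simp only [dif_pos hε]
    exact hr ε hε) δ hδ
  refine ⟨C, fun ψ φ H G hψ hH hG hHb hGb hc => ?_⟩
  have hmaps : MapsTo (Pool.Agent.W732.Cor.tau p t) (ball (0 : V m) 1) (ball 0 1) := by
    intro z hz
    rw [mem_ball_zero_iff] at hz ⊢
    exact Pool.Agent.W732.Cor.tau_mem p z hp ht0 ht1.le hz
  refine hC ψ φ (fun s j z => H s j (Pool.Agent.W732.Cor.tau p t z)) G hψ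
    (fun s j => (hH s j).comp (Pool.Agent.W732.Cor.tau_diff p t).differentiableOn hmaps) hG
    (fun s j z hz => hHb s j _ (hmaps hz)) hGb ?_ hc
  intro s j q hq hpq ε hε a ha z hz w hw hzq hwq
  simp only [dif_pos hε] at hzq hwq
  exact hr2 ε hε (H s j) (hH s j) (hHb s j) q hq hpq a ha z hz w hw hzq hwq

/-- The case of functions of one variable: arbitrary `f_{s,j} ∈ H^∞(𝔻)` along `k` arbitrary complex
geodesics of the ball and one arbitrary `G ∈ H^∞(B)`. -/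
theorem one_variable (m k N : ℕ) (p : V m) (hp : ‖p‖ = 1) (δ : ℝ) (hδ : 0 < δ) :
    ∃ C : ℝ, ∀ (ψ φ : Fin k → V m → V m) (f : Fin k → Fin N → ℂ → ℂ) (G : V m → ℂ),
      (∀ s, IsAut (ψ s) (φ s)) →
      (∀ s j, DifferentiableOn ℂ (f s j) (ball 0 1)) → DifferentiableOn ℂ G (ball 0 1) →
      (∀ s j, ∀ x ∈ ball (0 : ℂ) 1, ‖f s j x‖ ≤ 1) → (∀ z ∈ ball (0 : V m) 1, ‖G z‖ ≤ 1) →
      (∀ z ∈ ball (0 : V m) 1, δ ≤ ∑ s, ∑ j, ‖f s j (inner ℂ p (ψ s z))‖ + ‖G z‖) →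
      ∃ (g : Fin k → Fin N → V m → ℂ) (g₀ : V m → ℂ),
        (∀ s j, DifferentiableOn ℂ (g s j) (ball 0 1)) ∧ DifferentiableOn ℂ g₀ (ball 0 1) ∧
        (∀ s j, ∀ z ∈ ball (0 : V m) 1, ‖g s j z‖ ≤ C) ∧ (∀ z ∈ ball (0 : V m) 1, ‖g₀ z‖ ≤ C) ∧
        ∀ z ∈ ball (0 : V m) 1, ∑ s, ∑ j, f s j (inner ℂ p (ψ s z)) * g s j z + G z * g₀ z = 1 := by
  obtain ⟨C, hC⟩ := tau_functions m k N p hp 0 le_rfl one_pos δ hδ
  have hpp : (inner ℂ p p : ℂ) = 1 := Pool.Agent.W721.Cor.Mv.inner_pp hp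
  have hin : ∀ z : V m, (inner ℂ p ((inner ℂ p z : ℂ) • p + ((0 : ℝ) : ℂ) •
      (z - (inner ℂ p z : ℂ) • p)) : ℂ) = inner ℂ p z := by
    intro z
    rw [Complex.ofReal_zero, zero_smul, add_zero, inner_smul_right, hpp, mul_one]
  have hmaps : MapsTo (fun z : V m => (inner ℂ p z : ℂ)) (ball 0 1) (ball 0 1) := by
    intro z hz
    rw [mem_ball_zero_iff]
    exact Pool.Agent.W721.Cor.Mv.inner_lt hp hz
  refine ⟨C, fun ψ φ f G hψ hf hG hfb hGb hc => ?_⟩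
  have h1 := hC ψ φ (fun s j z => f s j (inner ℂ p z)) G hψ
    (fun s j => (hf s j).comp (innerSL ℂ p).differentiable.differentiableOn hmaps) hG
    (fun s j z hz => hfb s j _ (hmaps hz)) hGb (by
      intro z hz
      simp only [hin]
      exact hc z hz)
  simp only [hin] at h1
  exact h1

end Pool.Agent.Results.MP_ca0fc2_an.ManyGeodesics
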